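import Mathlib

set_option autoImplicit false

namespace Pool.Agent.Helper297.Cube

open Finset

/-- Section of a subset of the cube along the first coordinate. -/
def sec {k : ℕ} (F : Finset (Fin (k + 1) → Bool)) (b : Bool) : Finset (Fin k → Bool) :=
  univ.filter (fun y => (Fin.cons b y : Fin (k + 1) → Bool) ∈ F)

theorem card_sec {k : ℕ} (F : Finset (Fin (k + 1) → Bool)) :
    F.card = (sec F false).card + (sec F true).card := by
  classical
  have h1 : ∀ b : Bool, (F.filter (fun x => x 0 = b)).card = (sec F b).card := by
    intro b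
    symm
    apply Finset.card_bij (fun (y : Fin k → Bool) _ => (Fin.cons b y : Fin (k + 1) → Bool))
    · intro y hy
      simp only [sec, Finset.mem_filter, Finset.mem_univ, true_and] at hy
      simp only [Finset.mem_filter, Fin.cons_zero, and_true]
      exact hy
    · intro y _ y' _ h
      exact (Fin.cons_injective2 h).2
    · intro x hx
      simp only [Finset.mem_filter] at hx
      refine ⟨Fin.tail x, ?_, ?_⟩
      · simp only [sec, Finset.mem_filter, Finset.mem_univ, true_and]
        rw [← hx.2, Fin.cons_self_tail]
        exact hx.1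
      · rw [← hx.2, Fin.cons_self_tail]
  rw [← h1 false, ← h1 true]
  have h2 := Finset.card_filter_add_card_filter_not (s := F) (fun x => x 0 = false)
  have h3 : F.filter (fun x => ¬ x 0 = false) = F.filter (fun x => x 0 = true) := by
    apply Finset.filter_congr
    intro x _
    simp
  rw [h3] at h2
  exact h2.symm

theorem dist_cons {k : ℕ} (b b' : Bool) (y y' : Fin k → Bool) :
    hammingDist (Fin.cons b y : Fin (k + 1) → Bool) (Fin.cons b' y' : Fin (k + 1) → Bool)
      = (if b = b' then 0 else 1) + hammingDist y y' := by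
  unfold hammingDist
  rw [Fin.univ_succ, Finset.filter_cons]
  by_cases hb : b = b'
  · simp [hb, Finset.filter_map, Finset.card_map]
  · simp only [Fin.cons_zero, ne_eq, hb, not_false_eq_true, if_true, if_false,
      Finset.card_cons, Finset.filter_map, Finset.card_map]
    rw [add_comm]
    congr 1

/-- The elementary optimisation behind the induction step. -/
theorem four_terms {a b p q X E : ℝ} (hb : 0 ≤ b) (hX : 0 < X)
    (hE : 0 < E) (haX : a ≤ X) (hbX : b ≤ X) (hp : p ≤ E * X) (hq : q ≤ E * X)
    (h : a * b = p * q) : a + b + p + q ≤ (2 + E + E⁻¹) * X := by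
  have h1 : 0 ≤ (E * X - p) * (E * X - q) := mul_nonneg (by linarith) (by linarith)
  have h2 : a * b ≤ X * X := mul_le_mul haX hbX hb hX.le
  have h3 : E * X * (p + q) ≤ (E * X) * (E * X) + X * X := by nlinarith
  have hEX : 0 < E * X := mul_pos hE hX
  have h4 : p + q ≤ (E + E⁻¹) * X := by
    rw [← mul_le_mul_iff_right₀ hEX]
    calc E * X * (p + q) ≤ (E * X) * (E * X) + X * X := h3
      _ = E * X * ((E + E⁻¹) * X) := by field_simp
  linarith

/-- Two subsets of the cube at Hamming distance at least `t` are small. -/
theorem cube_iso (l : ℝ) : ∀ (k : ℕ) (t : ℝ) (F G : Finset (Fin k → Bool)),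
    0 ≤ l → (∀ x ∈ F, ∀ y ∈ G, t ≤ (hammingDist x y : ℝ)) →
    (F.card : ℝ) * (G.card : ℝ) ≤
      (2 + Real.exp l + Real.exp (-l)) ^ k * Real.exp (-(l * t)) := by
  intro k
  induction k with
  | zero =>
    intro t F G hl h
    rcases F.eq_empty_or_nonempty with hF | ⟨x, hx⟩
    · subst hF; simp; positivity
    rcases G.eq_empty_or_nonempty with hG | ⟨y, hy⟩
    · subst hG; simp; positivity
    have h1 := h x hx y hy
    have h2 : hammingDist x y = 0 := by
      rw [hammingDist_eq_zero]; exact Subsingleton.elim _ _
    rw [h2] at h1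
    have hF : F.card ≤ 1 := Finset.card_le_one_of_subsingleton F
    have hG : G.card ≤ 1 := Finset.card_le_one_of_subsingleton G
    have hF' : (F.card : ℝ) ≤ 1 := by exact_mod_cast hF
    have hG' : (G.card : ℝ) ≤ 1 := by exact_mod_cast hG
    have h3 : (F.card : ℝ) * (G.card : ℝ) ≤ 1 :=
      mul_le_one₀ hF' (by positivity) hG'
    have h4 : 1 ≤ Real.exp (-(l * t)) := by
      apply Real.one_le_exp
      have : t ≤ 0 := by simpa using h1
      nlinarith
    simpa using h3.trans h4
  | succ k ih =>
    intro t F G hl h
    set B : ℝ := 2 + Real.exp l + Real.exp (-l) with hB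
    have hBpos : 0 < B := by positivity
    set X : ℝ := B ^ k * Real.exp (-(l * t)) with hX
    have hXpos : 0 < X := by positivity
    have same : ∀ b : Bool, ((sec F b).card : ℝ) * ((sec G b).card : ℝ) ≤ X := by
      intro b
      apply ih t _ _ hl
      intro x hx y hy
      simp only [sec, Finset.mem_filter, Finset.mem_univ, true_and] at hx hy
      have := h _ hx _ hy
      rw [dist_cons] at this
      simpa using this
    have diff : ∀ b b' : Bool, b ≠ b' →
        ((sec F b).card : ℝ) * ((sec G b').card : ℝ) ≤ Real.exp l * X := by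
      intro b b' hbb
      have := ih (t - 1) (sec F b) (sec G b') hl (by
        intro x hx y hy
        simp only [sec, Finset.mem_filter, Finset.mem_univ, true_and] at hx hy
        have := h _ hx _ hy
        rw [dist_cons] at this
        simp only [hbb, if_false] at this
        push_cast at this
        linarith)
      refine this.trans (le_of_eq ?_)
      rw [hX]
      have : Real.exp (-(l * (t - 1))) = Real.exp l * Real.exp (-(l * t)) := by
        rw [← Real.exp_add]; congr 1; ring
      rw [this]; ring
    rw [card_sec F, card_sec G]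
    push_cast
    have key := four_terms (a := ((sec F false).card : ℝ) * ((sec G false).card : ℝ))
      (b := ((sec F true).card : ℝ) * ((sec G true).card : ℝ))
      (p := ((sec F false).card : ℝ) * ((sec G true).card : ℝ))
      (q := ((sec F true).card : ℝ) * ((sec G false).card : ℝ))
      (X := X) (E := Real.exp l) (by positivity) hXpos (Real.exp_pos l)
      (same false) (same true) (diff false true (by decide)) (diff true false (by decide))
      (by ring)
    rw [← Real.exp_neg] at key
    calc (((sec F false).card : ℝ) + ((sec F true).card : ℝ)) *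
          (((sec G false).card : ℝ) + ((sec G true).card : ℝ))
        = ((sec F false).card : ℝ) * ((sec G false).card : ℝ)
          + ((sec F true).card : ℝ) * ((sec G true).card : ℝ)
          + ((sec F false).card : ℝ) * ((sec G true).card : ℝ)
          + ((sec F true).card : ℝ) * ((sec G false).card : ℝ) := by ring
      _ ≤ B * X := key
      _ = B ^ (k + 1) * Real.exp (-(l * t)) := by rw [hX]; ring

/-- Quadratic form of the previous bound. -/
theorem cube_iso' {k : ℕ} (hk : 1 ≤ k) {t : ℝ} (ht : 0 ≤ t) (F G : Finset (Fin k → Bool))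
    (h : ∀ x ∈ F, ∀ y ∈ G, t ≤ (hammingDist x y : ℝ)) :
    (F.card : ℝ) * (G.card : ℝ) ≤ 4 ^ k * Real.exp (-(t ^ 2 / k)) := by
  have hkR : (0 : ℝ) < (k : ℝ) := by exact_mod_cast hk
  set l : ℝ := 2 * t / k with hl
  have hl0 : 0 ≤ l := by positivity
  refine (cube_iso l k t F G hl0 h).trans ?_
  have h1 : 2 + Real.exp l + Real.exp (-l) ≤ 4 * Real.exp (l ^ 2 / 4) := by
    have h2 : 2 + Real.exp l + Real.exp (-l) = 4 * Real.cosh (l / 2) ^ 2 := by
      rw [Real.cosh_eq]
      have e1 : Real.exp l = Real.exp (l / 2) * Real.exp (l / 2) := by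
        rw [← Real.exp_add]; congr 1; ring
      have e2 : Real.exp (-l) = Real.exp (-(l / 2)) * Real.exp (-(l / 2)) := by
        rw [← Real.exp_add]; congr 1; ring
      have e3 : Real.exp (l / 2) * Real.exp (-(l / 2)) = 1 := by
        rw [← Real.exp_add]; simp
      rw [e1, e2]
      nlinarith
    rw [h2]
    have h3 := Real.cosh_le_exp_half_sq (l / 2)
    have h4 : Real.cosh (l / 2) ^ 2 ≤ Real.exp ((l / 2) ^ 2 / 2) ^ 2 :=
      pow_le_pow_left₀ (Real.cosh_pos _).le h3 2
    have h5 : Real.exp ((l / 2) ^ 2 / 2) ^ 2 = Real.exp (l ^ 2 / 4) := by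
      rw [← Real.exp_nat_mul]; congr 1; push_cast; ring
    rw [h5] at h4
    linarith
  calc (2 + Real.exp l + Real.exp (-l)) ^ k * Real.exp (-(l * t))
      ≤ (4 * Real.exp (l ^ 2 / 4)) ^ k * Real.exp (-(l * t)) := by
        apply mul_le_mul_of_nonneg_right _ (Real.exp_pos _).le
        exact pow_le_pow_left₀ (by positivity) h1 k
    _ = 4 ^ k * Real.exp (-(t ^ 2 / k)) := by
        rw [mul_pow, ← Real.exp_nat_mul, mul_assoc, ← Real.exp_add]
        congr 2
        rw [hl]; field_simp; ring

/-- Families of subsets of a `k`-set (as Boolean functions) whose members pairwise share at least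
`t` points have size at most `2^k exp(-t^2/(2k))`. -/
theorem intersecting_bound {k : ℕ} (hk : 1 ≤ k) {t : ℝ} (ht : 0 ≤ t) (htk : t ≤ k)
    (F : Finset (Fin k → Bool))
    (h : ∀ x ∈ F, ∀ y ∈ F, x ≠ y →
      t ≤ ((univ.filter (fun i => x i = true ∧ y i = true)).card : ℝ)) :
    (F.card : ℝ) ≤ 2 ^ k * Real.exp (-(t ^ 2 / (2 * k))) := by
  classical
  let neg : (Fin k → Bool) → (Fin k → Bool) := fun y i => !(y i)
  have hneg : Function.Injective neg := by
    intro x y hxy
    funext i
    have := congrFun hxy i
    simpa [neg] using this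
  have hG : (F.image neg).card = F.card := Finset.card_image_of_injective F hneg
  have h1 := cube_iso' hk ht F (F.image neg) (by
    intro x hx z hz
    rw [Finset.mem_image] at hz
    obtain ⟨y, hy, rfl⟩ := hz
    have hd : hammingDist x (neg y) = (univ.filter (fun i => x i = y i)).card := by
      unfold hammingDist
      congr 1
      ext i
      simp only [Finset.mem_filter, Finset.mem_univ, true_and, neg]
      cases x i <;> cases y i <;> simp
    rw [hd]
    by_cases hxy : x = y
    · subst hxy
      simpa using htk
    · refine (h x hx y hy hxy).trans ?_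
      have : (univ.filter (fun i => x i = true ∧ y i = true)).card ≤
          (univ.filter (fun i => x i = y i)).card := by
        apply Finset.card_le_card
        intro i hi
        simp only [Finset.mem_filter, Finset.mem_univ, true_and] at hi ⊢
        rw [hi.1, hi.2]
      exact_mod_cast this)
  rw [hG] at h1
  have h2 : (F.card : ℝ) ^ 2 ≤ (2 ^ k * Real.exp (-(t ^ 2 / (2 * k)))) ^ 2 := by
    calc (F.card : ℝ) ^ 2 = (F.card : ℝ) * (F.card : ℝ) := by ring
      _ ≤ 4 ^ k * Real.exp (-(t ^ 2 / k)) := h1
      _ = (2 ^ k * Real.exp (-(t ^ 2 / (2 * k)))) ^ 2 := by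
          rw [mul_pow, ← Real.exp_nat_mul, ← pow_mul, mul_comm k 2, pow_mul]
          norm_num
          ring
  exact le_of_sq_le_sq h2 (by positivity)

end Pool.Agent.Helper297.Cube
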