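import Mathlib

set_option autoImplicit false

namespace Pool.Agent.Helper297.Drc

open Finset

/-- Dependent random choice: among `m` sets of density at least `c` there is a subfamily of size
at least `m c^t - m^2 ε^t` whose members pairwise meet in density more than `ε`. -/
theorem drc {ι α : Type*} [DecidableEq ι] [Fintype α] [DecidableEq α] [Nonempty α]
    (J : Finset ι) (A : ι → Finset α) (c ε : ℝ) (hc : 0 ≤ c) (hε : 0 ≤ ε)
    (hA : ∀ i ∈ J, c * (Fintype.card α : ℝ) ≤ ((A i).card : ℝ)) (t : ℕ) :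
    ∃ I : Finset ι, I ⊆ J ∧
      (J.card : ℝ) * c ^ t - (J.card : ℝ) ^ 2 * ε ^ t ≤ (I.card : ℝ) ∧
      ∀ i ∈ I, ∀ j ∈ I, i ≠ j → ε * (Fintype.card α : ℝ) < ((A i ∩ A j).card : ℝ) := by
  classical
  set n : ℝ := (Fintype.card α : ℝ) with hn
  set m : ℝ := (J.card : ℝ) with hm
  have hnpos : 0 < n := by
    rw [hn]; exact_mod_cast Fintype.card_pos
  -- the selected set
  let S : (Fin t → α) → Finset ι := fun x => J.filter (fun i => ∀ s, x s ∈ A i)
  let B : Finset (ι × ι) :=
    (J ×ˢ J).filter (fun p => p.1 ≠ p.2 ∧ ((A p.1 ∩ A p.2).card : ℝ) ≤ ε * n)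
  let T : (Fin t → α) → Finset (ι × ι) := fun x =>
    B.filter (fun p => ∀ s, x s ∈ A p.1 ∩ A p.2)
  have key1 : ∑ x : Fin t → α, ((S x).card : ℝ) = ∑ i ∈ J, ((A i).card : ℝ) ^ t := by
    have h1 : ∀ x : Fin t → α, ((S x).card : ℝ) =
        ∑ i ∈ J, (if (∀ s, x s ∈ A i) then (1 : ℝ) else 0) := by
      intro x
      simp [S]
    simp_rw [h1]
    rw [Finset.sum_comm]
    refine Finset.sum_congr rfl ?_
    intro i _
    have h2 : (Fintype.piFinset (fun _ : Fin t => A i)).card = (A i).card ^ t := by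
      simp
    have h3 : (univ.filter (fun x : Fin t → α => ∀ s, x s ∈ A i))
        = Fintype.piFinset (fun _ : Fin t => A i) := by
      ext x; simp
    rw [Finset.sum_boole, h3, h2]
    push_cast; rfl
  have key2 : ∑ x : Fin t → α, ((T x).card : ℝ) = ∑ p ∈ B, ((A p.1 ∩ A p.2).card : ℝ) ^ t := by
    have h1 : ∀ x : Fin t → α, ((T x).card : ℝ) =
        ∑ p ∈ B, (if (∀ s, x s ∈ A p.1 ∩ A p.2) then (1 : ℝ) else 0) := by
      intro x
      rw [Finset.sum_boole]
    simp_rw [h1]
    rw [Finset.sum_comm]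
    refine Finset.sum_congr rfl ?_
    intro p _
    have h2 : (Fintype.piFinset (fun _ : Fin t => A p.1 ∩ A p.2)).card
        = (A p.1 ∩ A p.2).card ^ t := by
      simp
    have h3 : (univ.filter (fun x : Fin t → α => ∀ s, x s ∈ A p.1 ∩ A p.2))
        = Fintype.piFinset (fun _ : Fin t => A p.1 ∩ A p.2) := by
      ext x; simp
    rw [Finset.sum_boole, h3, h2]
    push_cast; rfl
  have low : m * (c * n) ^ t ≤ ∑ x : Fin t → α, ((S x).card : ℝ) := by
    rw [key1]
    have : ∑ i ∈ J, (c * n) ^ t ≤ ∑ i ∈ J, ((A i).card : ℝ) ^ t := by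
      refine Finset.sum_le_sum ?_
      intro i hi
      exact pow_le_pow_left₀ (by positivity) (hA i hi) t
    simpa [hm] using this
  have upp : ∑ x : Fin t → α, ((T x).card : ℝ) ≤ m ^ 2 * (ε * n) ^ t := by
    rw [key2]
    have h1 : ∑ p ∈ B, ((A p.1 ∩ A p.2).card : ℝ) ^ t ≤ ∑ p ∈ B, (ε * n) ^ t := by
      refine Finset.sum_le_sum ?_
      intro p hp
      have hp' := (Finset.mem_filter.mp hp).2.2
      exact pow_le_pow_left₀ (by positivity) hp' t
    have h2 : ∑ p ∈ B, (ε * n) ^ t = (B.card : ℝ) * (ε * n) ^ t := by simp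
    have h3 : (B.card : ℝ) ≤ m ^ 2 := by
      have : B.card ≤ (J ×ˢ J).card := Finset.card_filter_le _ _
      rw [Finset.card_product] at this
      calc (B.card : ℝ) ≤ ((J.card * J.card : ℕ) : ℝ) := by exact_mod_cast this
        _ = m ^ 2 := by push_cast; rw [hm]; ring
    calc ∑ p ∈ B, ((A p.1 ∩ A p.2).card : ℝ) ^ t ≤ (B.card : ℝ) * (ε * n) ^ t := by
            rw [← h2]; exact h1
      _ ≤ m ^ 2 * (ε * n) ^ t := by
            apply mul_le_mul_of_nonneg_right h3 (by positivity)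
  -- choose x
  have hex : ∃ x : Fin t → α, m * c ^ t - m ^ 2 * ε ^ t ≤ ((S x).card : ℝ) - ((T x).card : ℝ) := by
    by_contra hcon
    push Not at hcon
    have hlt : ∑ x : Fin t → α, (((S x).card : ℝ) - ((T x).card : ℝ))
        < ∑ x : Fin t → α, (m * c ^ t - m ^ 2 * ε ^ t) := by
      refine Finset.sum_lt_sum_of_nonempty ?_ ?_
      · exact Finset.univ_nonempty
      · intro x _; exact hcon x
    rw [Finset.sum_sub_distrib] at hlt
    have hcard : ∑ x : Fin t → α, (m * c ^ t - m ^ 2 * ε ^ t)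
        = n ^ t * (m * c ^ t - m ^ 2 * ε ^ t) := by
      simp [hn]
      ring
    rw [hcard] at hlt
    have : n ^ t * (m * c ^ t - m ^ 2 * ε ^ t) = m * (c * n) ^ t - m ^ 2 * (ε * n) ^ t := by
      rw [mul_pow, mul_pow]; ring
    linarith
  obtain ⟨x, hx⟩ := hex
  refine ⟨S x \ (T x).image Prod.fst, ?_, ?_, ?_⟩
  · exact Finset.sdiff_subset.trans (Finset.filter_subset _ _)
  · have h1 : ((S x \ (T x).image Prod.fst).card : ℝ)
        ≥ ((S x).card : ℝ) - (((T x).image Prod.fst).card : ℝ) := by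
      have := Finset.le_card_sdiff ((T x).image Prod.fst) (S x)
      have h' : (S x).card ≤ (S x \ (T x).image Prod.fst).card + ((T x).image Prod.fst).card := by
        omega
      have h'' : ((S x).card : ℝ) ≤ ((S x \ (T x).image Prod.fst).card : ℝ)
          + (((T x).image Prod.fst).card : ℝ) := by exact_mod_cast h'
      linarith
    have h2 : (((T x).image Prod.fst).card : ℝ) ≤ ((T x).card : ℝ) := by
      exact_mod_cast Finset.card_image_le
    linarith
  · intro i hi j hj hij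
    rw [Finset.mem_sdiff] at hi hj
    by_contra hle
    push Not at hle
    apply hi.2
    rw [Finset.mem_image]
    refine ⟨(i, j), ?_, rfl⟩
    have hi0 := Finset.mem_filter.mp hi.1
    have hj0 := Finset.mem_filter.mp hj.1
    simp only [T, B, Finset.mem_filter, Finset.mem_product]
    refine ⟨⟨⟨hi0.1, hj0.1⟩, hij, hle⟩, ?_⟩
    intro s
    rw [Finset.mem_inter]
    exact ⟨hi0.2 s, hj0.2 s⟩

/-- Dependent random choice with the parameter optimised: with `ε = c^(s+1)` one finds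
`(c/4) N^(1-1/s)` sets that pairwise meet in density more than `ε`. -/
theorem drc_power {c : ℝ} (hc0 : 0 < c) (hc1 : c < 1) {s : ℕ} (hs : 1 ≤ s)
    {ι α : Type*} [DecidableEq ι] [Fintype α] [DecidableEq α] [Nonempty α]
    (J : Finset ι) (hJ : J.Nonempty) (A : ι → Finset α)
    (hA : ∀ i ∈ J, c * (Fintype.card α : ℝ) ≤ ((A i).card : ℝ)) :
    ∃ I : Finset ι, I ⊆ J ∧ c / 4 * (J.card : ℝ) ^ (1 - (s : ℝ)⁻¹) ≤ (I.card : ℝ) ∧
      ∀ i ∈ I, ∀ j ∈ I, i ≠ j →
        c ^ (s + 1) * (Fintype.card α : ℝ) < ((A i ∩ A j).card : ℝ) := by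
  classical
  have hsR : (1 : ℝ) ≤ (s : ℝ) := by exact_mod_cast hs
  have hspos : (0 : ℝ) < (s : ℝ) := by linarith
  have hcardpos : 0 < J.card := Finset.card_pos.mpr hJ
  set N : ℝ := (J.card : ℝ) with hN
  have hN1 : 1 ≤ N := by rw [hN]; exact_mod_cast hcardpos
  have hcs : c ^ s < 1 := pow_lt_one₀ hc0.le hc1 (by omega)
  have hex : ∃ t : ℕ, (c ^ s) ^ t ≤ 1 / (2 * N) := by
    obtain ⟨t, ht⟩ := exists_pow_lt_of_lt_one (show (0 : ℝ) < 1 / (2 * N) by positivity) hcs
    exact ⟨t, ht.le⟩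
  let t := Nat.find hex
  have ht : (c ^ s) ^ t ≤ 1 / (2 * N) := Nat.find_spec hex
  have htpos : 0 < t := by
    rcases Nat.eq_zero_or_pos t with h0 | h0
    · exfalso
      rw [h0, pow_zero] at ht
      rw [le_div_iff₀ (by positivity)] at ht
      linarith
    · exact h0
  have ht1 : 1 / (2 * N) < (c ^ s) ^ (t - 1) := by
    have := Nat.find_min hex (m := t - 1) (by omega)
    push Not at this
    exact this
  obtain ⟨I, hIJ, hI1, hI2⟩ := drc J A c (c ^ (s + 1)) hc0.le (by positivity) hA t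
  refine ⟨I, hIJ, ?_, hI2⟩
  refine le_trans ?_ hI1
  have e1 : N * c ^ t - N ^ 2 * (c ^ (s + 1)) ^ t = N * c ^ t * (1 - N * (c ^ s) ^ t) := by
    have : (c ^ (s + 1)) ^ t = c ^ t * (c ^ s) ^ t := by
      rw [← pow_mul, ← pow_mul, ← pow_add]; congr 1; ring
    rw [this]; ring
  rw [e1]
  have e2 : N * (c ^ s) ^ t ≤ 1 / 2 := by
    calc N * (c ^ s) ^ t ≤ N * (1 / (2 * N)) := by
          apply mul_le_mul_of_nonneg_left ht (by positivity)
      _ = 1 / 2 := by field_simp
  have e3 : 1 / 2 * N ^ (-(s : ℝ)⁻¹) ≤ c ^ (t - 1) := by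
    have h1 : (c ^ s) ^ (t - 1) = (c ^ (t - 1)) ^ s := by
      rw [← pow_mul, ← pow_mul, mul_comm]
    rw [h1] at ht1
    have h2 : (1 / (2 * N)) ^ (s : ℝ)⁻¹ ≤ ((c ^ (t - 1)) ^ s) ^ (s : ℝ)⁻¹ :=
      Real.rpow_le_rpow (by positivity) ht1.le (by positivity)
    rw [Real.pow_rpow_inv_natCast (by positivity) (by omega)] at h2
    refine le_trans ?_ h2
    have h3 : (1 / (2 * N)) ^ (s : ℝ)⁻¹ = (1 / 2) ^ (s : ℝ)⁻¹ * N ^ (-(s : ℝ)⁻¹) := by
      rw [Real.rpow_neg (by positivity), ← Real.inv_rpow (by positivity),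
        ← Real.mul_rpow (by positivity) (by positivity)]
      congr 1
      field_simp
    rw [h3]
    apply mul_le_mul_of_nonneg_right _ (by positivity)
    have h4 : ((1 : ℝ) / 2) ^ (1 : ℝ) ≤ (1 / 2) ^ (s : ℝ)⁻¹ := by
      apply Real.rpow_le_rpow_of_exponent_ge (by norm_num) (by norm_num)
      exact inv_le_one_of_one_le₀ hsR
    simpa using h4
  have e4 : c / 2 * N ^ (1 - (s : ℝ)⁻¹) ≤ N * c ^ t := by
    have h1 : c ^ t = c * c ^ (t - 1) := by
      rw [← pow_succ']; congr 1; omega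
    have h2 : N ^ (1 - (s : ℝ)⁻¹) = N * N ^ (-(s : ℝ)⁻¹) := by
      rw [sub_eq_add_neg, Real.rpow_add (by positivity), Real.rpow_one]
    rw [h1, h2]
    calc c / 2 * (N * N ^ (-(s : ℝ)⁻¹)) = N * (c * (1 / 2 * N ^ (-(s : ℝ)⁻¹))) := by ring
      _ ≤ N * (c * c ^ (t - 1)) := by
          apply mul_le_mul_of_nonneg_left _ (by positivity)
          apply mul_le_mul_of_nonneg_left e3 hc0.le
  calc c / 4 * N ^ (1 - (s : ℝ)⁻¹) = (c / 2 * N ^ (1 - (s : ℝ)⁻¹)) * (1 / 2) := by ring
    _ ≤ (N * c ^ t) * (1 / 2) := by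
        apply mul_le_mul_of_nonneg_right e4 (by norm_num)
    _ ≤ N * c ^ t * (1 - N * (c ^ s) ^ t) := by
        apply mul_le_mul_of_nonneg_left _ (by positivity)
        linarith

/-- Greedy colouring: if every nonempty subfamily of size `N` contains a good set of size at least
`b N^(1-δ)` then `b⁻¹ δ⁻¹ N^δ` good classes suffice. -/
theorem greedy {ι : Type*} [DecidableEq ι] (R : ι → ι → Prop) {b δ : ℝ} (hb : 0 < b)
    (hδ : 0 < δ) (hδ1 : δ ≤ 1) (U : Finset ι)
    (h : ∀ J : Finset ι, J ⊆ U → J.Nonempty → ∃ I : Finset ι, I ⊆ J ∧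
      b * (J.card : ℝ) ^ (1 - δ) ≤ (I.card : ℝ) ∧ ∀ i ∈ I, ∀ j ∈ I, i ≠ j → R i j) :
    ∀ (N : ℕ) (J : Finset ι), J ⊆ U → J.card = N →
      ∃ (K : ℕ) (col : ι → ℕ), (K : ℝ) ≤ (b * δ)⁻¹ * (J.card : ℝ) ^ δ ∧
        (∀ i ∈ J, col i < K) ∧ ∀ i ∈ J, ∀ j ∈ J, i ≠ j → col i = col j → R i j := by
  intro N
  induction N using Nat.strong_induction_on with
  | _ N ih =>
    intro J hJU hJN
    rcases J.eq_empty_or_nonempty with hJ | hJ
    · subst hJ
      refine ⟨0, fun _ => 0, ?_, by simp, by simp⟩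
      simp only [Nat.cast_zero]
      positivity
    · obtain ⟨I, hIJ, hI1, hI2⟩ := h J hJU hJ
      have hJpos : 0 < J.card := Finset.card_pos.mpr hJ
      have hJR : (1 : ℝ) ≤ (J.card : ℝ) := by exact_mod_cast hJpos
      set n : ℝ := (J.card : ℝ) with hn
      have hIpos : 0 < I.card := by
        have : (0 : ℝ) < (I.card : ℝ) := lt_of_lt_of_le (by positivity) hI1
        exact_mod_cast this
      have hcardle : I.card ≤ J.card := Finset.card_le_card hIJ
      have hcard : (J \ I).card = J.card - I.card := Finset.card_sdiff_of_subset hIJ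
      obtain ⟨K, col, hK, hcol1, hcol2⟩ := ih (J \ I).card (by omega) (J \ I)
        (Finset.sdiff_subset.trans hJU) rfl
      refine ⟨K + 1, fun i => if i ∈ I then K else col i, ?_, ?_, ?_⟩
      · push_cast
        have h1 : ((J \ I).card : ℝ) = n - (I.card : ℝ) := by
          rw [hcard, Nat.cast_sub hcardle]
        rw [h1] at hK
        have hnI : (I.card : ℝ) ≤ n := by rw [hn]; exact_mod_cast hcardle
        set y : ℝ := (I.card : ℝ) / n with hy
        have hy0 : 0 ≤ y := by positivity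
        have hy1 : y ≤ 1 := by
          rw [hy, div_le_one (by linarith)]; exact hnI
        have h2 : n - (I.card : ℝ) = n * (1 + (-y)) := by
          rw [hy]; field_simp; ring
        have h3 : (1 + (-y)) ^ δ ≤ 1 + δ * (-y) :=
          rpow_one_add_le_one_add_mul_self (by linarith) hδ.le hδ1
        have h4 : (n - (I.card : ℝ)) ^ δ ≤ n ^ δ * (1 - δ * y) := by
          rw [h2, Real.mul_rpow (by linarith) (by linarith)]
          have : 1 + δ * (-y) = 1 - δ * y := by ring
          rw [this] at h3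
          exact mul_le_mul_of_nonneg_left h3 (by positivity)
        have h5 : b ≤ n ^ δ * y := by
          rw [hy, mul_div_assoc']
          rw [le_div_iff₀ (by linarith)]
          have h6 : n = n ^ δ * n ^ (1 - δ) := by
            rw [← Real.rpow_add (by linarith)]; simp
          calc b * n = n ^ δ * (b * n ^ (1 - δ)) := by
                conv_lhs => rw [h6]
                ring
            _ ≤ n ^ δ * (I.card : ℝ) := mul_le_mul_of_nonneg_left hI1 (by positivity)
        have h7 : (b * δ)⁻¹ * (n - (I.card : ℝ)) ^ δ ≤ (b * δ)⁻¹ * n ^ δ - 1 := by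
          calc (b * δ)⁻¹ * (n - (I.card : ℝ)) ^ δ
              ≤ (b * δ)⁻¹ * (n ^ δ * (1 - δ * y)) :=
                mul_le_mul_of_nonneg_left h4 (by positivity)
            _ = (b * δ)⁻¹ * n ^ δ - (b * δ)⁻¹ * (δ * (n ^ δ * y)) := by ring
            _ ≤ (b * δ)⁻¹ * n ^ δ - (b * δ)⁻¹ * (δ * b) := by
                have : (b * δ)⁻¹ * (δ * b) ≤ (b * δ)⁻¹ * (δ * (n ^ δ * y)) := by
                  apply mul_le_mul_of_nonneg_left _ (by positivity)
                  exact mul_le_mul_of_nonneg_left h5 hδ.le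
                linarith
            _ = (b * δ)⁻¹ * n ^ δ - 1 := by
                field_simp
        linarith
      · intro i hi
        by_cases hiI : i ∈ I
        · simp [hiI]
        · simp only [hiI, if_false]
          have := hcol1 i (Finset.mem_sdiff.mpr ⟨hi, hiI⟩)
          omega
      · intro i hi j hj hij hcc
        by_cases hiI : i ∈ I <;> by_cases hjI : j ∈ I
        · exact hI2 i hiI j hjI hij
        · simp only [hiI, hjI, if_true, if_false] at hcc
          have := hcol1 j (Finset.mem_sdiff.mpr ⟨hj, hjI⟩)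
          omega
        · simp only [hiI, hjI, if_true, if_false] at hcc
          have := hcol1 i (Finset.mem_sdiff.mpr ⟨hi, hiI⟩)
          omega
        · simp only [hiI, hjI, if_false] at hcc
          exact hcol2 i (Finset.mem_sdiff.mpr ⟨hi, hiI⟩) j (Finset.mem_sdiff.mpr ⟨hj, hjI⟩) hij hcc

end Pool.Agent.Helper297.Drc
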