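import Mathlib
import Pool.Agent.Helper297.Cube

set_option autoImplicit false

namespace Pool.Agent.Helper297.Family

open Finset Pool.Agent.Helper297.Cube

/-- Blow-up of a subset of `Fin k`: every point becomes `q` points, and `r` common points are
added. -/
noncomputable def blow {k q r n : ℕ} (e : Fin n ≃ (Fin k × Fin q) ⊕ Fin r) (x : Fin k → Bool) :
    Finset (Fin n) :=
  (((univ.filter (fun i => x i = true)) ×ˢ (univ : Finset (Fin q))).disjSum
    (univ : Finset (Fin r))).map e.symm.toEmbedding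

theorem card_blow {k q r n : ℕ} (e : Fin n ≃ (Fin k × Fin q) ⊕ Fin r) (x : Fin k → Bool) :
    (blow e x).card = (univ.filter (fun i => x i = true)).card * q + r := by
  simp [blow, Finset.card_disjSum, Finset.card_product]

theorem blow_inter {k q r n : ℕ} (e : Fin n ≃ (Fin k × Fin q) ⊕ Fin r) (x y : Fin k → Bool) :
    blow e x ∩ blow e y = blow e (fun i => x i && y i) := by
  unfold blow
  rw [← Finset.map_inter]
  congr 1
  ext z
  rcases z with p | s
  · simp [Finset.mem_disjSum, Finset.mem_product]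
  · simp [Finset.mem_disjSum]

/-- The cube family. -/
theorem exists_family {ε : ℝ} (hε : 0 < ε) (hε1 : ε ≤ 1) {n m k : ℕ} (hk : 1 ≤ k)
    (hkn : 2 * (k : ℝ) ≤ ε * n) (hkm : 2 ^ k ≤ m) :
    ∃ A : Fin m → Finset (Fin n), (∀ i, (n : ℝ) < 2 * ((A i).card : ℝ)) ∧
      ∀ I : Finset (Fin m),
        (∀ i ∈ I, ∀ j ∈ I, i ≠ j → ε * (n : ℝ) ≤ ((A i ∩ A j).card : ℝ)) →
        (I.card : ℝ) ≤ 4 * m * Real.exp (-(ε ^ 2 * k / 8)) := by
  classical
  have hkR : (1 : ℝ) ≤ (k : ℝ) := by exact_mod_cast hk
  have hnk : 2 * k ≤ n := by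
    have : 2 * (k : ℝ) ≤ (n : ℝ) := by
      have h0 : (0 : ℝ) ≤ (n : ℝ) := by positivity
      nlinarith
    exact_mod_cast this
  set q : ℕ := (n - 1) / k with hq
  set r : ℕ := n - k * q with hr
  have hqk : k * q ≤ n - 1 := Nat.mul_div_le (n - 1) k
  have hq1 : 1 ≤ q := by
    rw [hq]; exact (Nat.le_div_iff_mul_le (by omega)).mpr (by omega)
  have hr1 : 1 ≤ r := by omega
  have hrk : r ≤ k := by
    have h1 : n - 1 < k * q + k := by
      have := Nat.lt_mul_div_succ (n - 1) (show 0 < k by omega)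
      rw [← hq] at this
      calc n - 1 < k * (q + 1) := this
        _ = k * q + k := by ring
    omega
  have hn : k * q + r = n := by omega
  have hcard : Fintype.card (Fin n) = Fintype.card ((Fin k × Fin q) ⊕ Fin r) := by
    simp [hn]
  let e : Fin n ≃ (Fin k × Fin q) ⊕ Fin r := Fintype.equivOfCardEq hcard
  -- heavy sets
  let 𝓕 : Finset (Fin k → Bool) :=
    univ.filter (fun x => k ≤ 2 * (univ.filter (fun i => x i = true)).card)
  have hM : 2 ^ k ≤ 2 * 𝓕.card := by
    have h1 := Finset.card_filter_add_card_filter_not (s := (univ : Finset (Fin k → Bool)))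
      (fun x => k ≤ 2 * (univ.filter (fun i => x i = true)).card)
    have h2 : (univ.filter (fun x : Fin k → Bool =>
        ¬ k ≤ 2 * (univ.filter (fun i => x i = true)).card)).card ≤ 𝓕.card := by
      apply Finset.card_le_card_of_injOn (fun x i => !(x i))
      · intro x hx
        simp only [Finset.coe_filter, Finset.mem_univ, true_and, Set.mem_ofPred_eq] at hx
        simp only [𝓕, Finset.coe_filter, Finset.mem_univ, true_and, Set.mem_ofPred_eq]
        have h3 := Finset.card_filter_add_card_filter_not (s := (univ : Finset (Fin k)))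
          (fun i => x i = true)
        simp only [Finset.card_univ, Fintype.card_fin] at h3
        have h4 : (univ.filter (fun i : Fin k => (!(x i)) = true)) =
            univ.filter (fun i : Fin k => ¬ x i = true) := by
          apply Finset.filter_congr
          intro i _
          simp
        rw [h4]
        omega
      · intro x _ y _ hxy
        funext i
        have := congrFun hxy i
        simpa using this
    have h5 : (univ : Finset (Fin k → Bool)).card = 2 ^ k := by simp
    rw [h5] at h1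
    change 𝓕.card + _ = _ at h1
    omega
  set M : ℕ := 𝓕.card with hMdef
  have hMpos : 0 < M := by
    have : 0 < 2 ^ k := by positivity
    omega
  have hMm : M ≤ m := by
    have : M ≤ 2 ^ k := by
      have := Finset.card_le_univ 𝓕
      simpa using this
    omega
  let g : Fin M ≃ 𝓕 := 𝓕.equivFin.symm
  let X : Fin m → (Fin k → Bool) := fun i => (g ⟨i.1 % M, Nat.mod_lt _ hMpos⟩).1
  have hX : ∀ i, X i ∈ 𝓕 := fun i => (g ⟨i.1 % M, Nat.mod_lt _ hMpos⟩).2
  have hXeq : ∀ i j, X i = X j → i.1 % M = j.1 % M := by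
    intro i j hij
    have h1 : g ⟨i.1 % M, Nat.mod_lt _ hMpos⟩ = g ⟨j.1 % M, Nat.mod_lt _ hMpos⟩ :=
      Subtype.ext hij
    have h2 := g.injective h1
    simpa using h2
  have hnR : (k : ℝ) * (q : ℝ) + (r : ℝ) = (n : ℝ) := by exact_mod_cast hn
  have hqR : (1 : ℝ) ≤ (q : ℝ) := by exact_mod_cast hq1
  have hrR : (1 : ℝ) ≤ (r : ℝ) := by exact_mod_cast hr1
  have hrkR : (r : ℝ) ≤ (k : ℝ) := by exact_mod_cast hrk
  refine ⟨fun i => blow e (X i), ?_, ?_⟩
  · intro i
    have h1 := hX i
    simp only [𝓕, Finset.mem_filter, Finset.mem_univ, true_and] at h1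
    have h1R : (k : ℝ) ≤ 2 * ((univ.filter (fun j => X i j = true)).card : ℝ) := by
      exact_mod_cast h1
    simp only [card_blow]
    push_cast
    nlinarith
  · intro I hI
    let F : Finset (Fin k → Bool) := I.image X
    have hfib : ∀ x ∈ F, (I.filter (fun i => X i = x)).card ≤ m / M + 1 := by
      intro x _
      have : (I.filter (fun i => X i = x)).card ≤ (Finset.range (m / M + 1)).card := by
        apply Finset.card_le_card_of_injOn (fun i => i.1 / M)
        · intro i _
          simp only [Finset.coe_range, Set.mem_Iio]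
          have := i.2
          have h1 : i.1 / M ≤ m / M := Nat.div_le_div_right (by omega)
          omega
        · intro i hi j hj hij
          simp only [Finset.coe_filter, Set.mem_ofPred_eq] at hi hj
          have h1 : i.1 % M = j.1 % M := hXeq i j (by rw [hi.2, hj.2])
          have h2 : i.1 / M = j.1 / M := hij
          apply Fin.ext
          rw [← Nat.div_add_mod i.1 M, ← Nat.div_add_mod j.1 M, h1, h2]
      simpa using this
    have hIF : I.card ≤ (m / M + 1) * F.card :=
      Finset.card_le_mul_card_image_of_maps_to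
        (fun i hi => Finset.mem_image_of_mem X hi) (m / M + 1) hfib
    have hFb := intersecting_bound hk (t := ε / 2 * k) (by positivity) (by nlinarith) F (by
      intro x hx y hy hxy
      obtain ⟨i, hi, rfl⟩ := Finset.mem_image.mp hx
      obtain ⟨j, hj, rfl⟩ := Finset.mem_image.mp hy
      have hij : i ≠ j := by
        intro h; exact hxy (by rw [h])
      have h1 := hI i hi j hj hij
      simp only [blow_inter, card_blow] at h1
      push_cast at h1
      have h2 : (univ.filter (fun l => (X i l && X j l) = true)) =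
          univ.filter (fun l => X i l = true ∧ X j l = true) := by
        apply Finset.filter_congr
        intro l _
        simp
      rw [h2] at h1
      set b : ℝ := ((univ.filter (fun l => X i l = true ∧ X j l = true)).card : ℝ) with hb
      have h3 : ε / 2 * k * q ≤ b * q := by nlinarith
      exact le_of_mul_le_mul_right h3 (by linarith))
    have hfac : ((m / M + 1 : ℕ) : ℝ) ≤ 4 * m / 2 ^ k := by
      have h1 : (m / M + 1) * 2 ^ k ≤ 4 * m := by
        calc (m / M + 1) * 2 ^ k ≤ (m / M + 1) * (2 * M) := Nat.mul_le_mul_left _ hM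
          _ = 2 * (m / M * M + M) := by ring
          _ ≤ 2 * (m + M) := by
              have := Nat.div_mul_le_self m M
              omega
          _ ≤ 4 * m := by omega
      rw [le_div_iff₀ (by positivity)]
      exact_mod_cast h1
    have hexp : Real.exp (-((ε / 2 * k) ^ 2 / (2 * k))) = Real.exp (-(ε ^ 2 * k / 8)) := by
      congr 1
      field_simp
      ring
    rw [hexp] at hFb
    calc (I.card : ℝ) ≤ ((m / M + 1 : ℕ) : ℝ) * (F.card : ℝ) := by exact_mod_cast hIF
      _ ≤ (4 * m / 2 ^ k) * (2 ^ k * Real.exp (-(ε ^ 2 * k / 8))) :=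
          mul_le_mul hfac hFb (by positivity) (by positivity)
      _ = 4 * m * Real.exp (-(ε ^ 2 * k / 8)) := by
          field_simp

/-- The family with all parameters chosen. -/
theorem family {ε : ℝ} (hε : 0 < ε) (hε1 : ε ≤ 1) :
    ∃ a : ℝ, 0 < a ∧ ∃ C : ℝ, 0 < C ∧ ∀ n m : ℕ, 1 ≤ n → 1 ≤ m →
      ∃ A : Fin m → Finset (Fin n), (∀ i, (n : ℝ) < 2 * ((A i).card : ℝ)) ∧
      ∀ I : Finset (Fin m),
        (∀ i ∈ I, ∀ j ∈ I, i ≠ j → ε * (n : ℝ) ≤ ((A i ∩ A j).card : ℝ)) →
        (I.card : ℝ) ≤ C * m * (min (m : ℝ) (2 ^ n)) ^ (-a) := by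
  set a : ℝ := ε ^ 3 / 16 with ha
  have hapos : 0 < a := by positivity
  refine ⟨a, hapos, 4 * Real.exp (a + ε ^ 2 / 8), by positivity, ?_⟩
  intro n m hn hm
  have hmR : (1 : ℝ) ≤ (m : ℝ) := by exact_mod_cast hm
  set L : ℕ := min n (Nat.log 2 m) with hL
  set k : ℕ := ⌊ε / 2 * (L : ℝ)⌋₊ with hk
  have hkL : (k : ℝ) ≤ ε / 2 * (L : ℝ) := Nat.floor_le (by positivity)
  have hkL' : ε / 2 * (L : ℝ) < (k : ℝ) + 1 := Nat.lt_floor_add_one _
  set W : ℝ := min (m : ℝ) (2 ^ n) with hW
  have hW1 : 1 ≤ W := by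
    apply le_min hmR
    exact one_le_pow₀ (by norm_num)
  have hWpos : 0 < W := by linarith
  -- W ≤ 2^(L+1)
  have hWL : W ≤ 2 ^ (L + 1) := by
    rcases le_total n (Nat.log 2 m) with h | h
    · have : L = n := min_eq_left h
      rw [this]
      calc W ≤ 2 ^ n := min_le_right _ _
        _ ≤ 2 ^ (n + 1) := pow_le_pow_right₀ (by norm_num) (by omega)
    · have : L = Nat.log 2 m := min_eq_right h
      rw [this]
      have h1 : m < 2 ^ (Nat.log 2 m + 1) := Nat.lt_pow_succ_log_self (by norm_num) m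
      calc W ≤ (m : ℝ) := min_le_left _ _
        _ ≤ 2 ^ (Nat.log 2 m + 1) := by exact_mod_cast h1.le
  have hWa : W ^ a ≤ Real.exp (a * (L + 1)) := by
    have h2 : W ≤ Real.exp ((L : ℝ) + 1) := by
      calc W ≤ 2 ^ (L + 1) := hWL
        _ ≤ (Real.exp 1) ^ (L + 1) := by
            apply pow_le_pow_left₀ (by norm_num)
            have := Real.add_one_le_exp (1 : ℝ)
            linarith
        _ = Real.exp ((L : ℝ) + 1) := by
            rw [← Real.exp_nat_mul]; congr 1; push_cast; ring
    calc W ^ a ≤ (Real.exp ((L : ℝ) + 1)) ^ a := Real.rpow_le_rpow hWpos.le h2 hapos.le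
      _ = Real.exp (a * (L + 1)) := by
          rw [← Real.exp_mul]; congr 1; ring
  have hkey : Real.exp (-(ε ^ 2 * k / 8)) ≤ Real.exp (a + ε ^ 2 / 8) * W ^ (-a) := by
    rw [Real.rpow_neg hWpos.le]
    rw [← div_eq_mul_inv, le_div_iff₀ (Real.rpow_pos_of_pos hWpos a)]
    calc Real.exp (-(ε ^ 2 * k / 8)) * W ^ a
        ≤ Real.exp (-(ε ^ 2 * k / 8)) * Real.exp (a * (L + 1)) :=
          mul_le_mul_of_nonneg_left hWa (Real.exp_pos _).le
      _ = Real.exp (-(ε ^ 2 * k / 8) + a * (L + 1)) := by rw [← Real.exp_add]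
      _ ≤ Real.exp (a + ε ^ 2 / 8) := by
          apply Real.exp_le_exp.mpr
          have h3 : a * (L : ℝ) ≤ ε ^ 2 / 8 * ((k : ℝ) + 1) := by
            rw [ha]
            have : ε ^ 3 / 16 * (L : ℝ) = ε ^ 2 / 8 * (ε / 2 * (L : ℝ)) := by ring
            rw [this]
            apply mul_le_mul_of_nonneg_left hkL'.le (by positivity)
          linarith
  rcases Nat.eq_zero_or_pos k with hk0 | hkpos
  · refine ⟨fun _ => univ, ?_, ?_⟩
    · intro i
      simp only [Finset.card_univ, Fintype.card_fin]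
      have : (1 : ℝ) ≤ (n : ℝ) := by exact_mod_cast hn
      linarith
    · intro I _
      have h1 : (I.card : ℝ) ≤ (m : ℝ) := by
        have := Finset.card_le_univ I
        simp only [Fintype.card_fin] at this
        exact_mod_cast this
      rw [hk0] at hkey
      simp only [Nat.cast_zero, mul_zero, zero_div, neg_zero, Real.exp_zero] at hkey
      have h4 : (m : ℝ) * 1 ≤ (m : ℝ) * (Real.exp (a + ε ^ 2 / 8) * W ^ (-a)) :=
        mul_le_mul_of_nonneg_left hkey (by linarith)
      have h5 : 0 ≤ Real.exp (a + ε ^ 2 / 8) * W ^ (-a) := by positivity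
      have h6 : 0 ≤ (m : ℝ) * (Real.exp (a + ε ^ 2 / 8) * W ^ (-a)) := by positivity
      calc (I.card : ℝ) ≤ (m : ℝ) := h1
        _ ≤ (m : ℝ) * (Real.exp (a + ε ^ 2 / 8) * W ^ (-a)) := by linarith
        _ ≤ 4 * ((m : ℝ) * (Real.exp (a + ε ^ 2 / 8) * W ^ (-a))) := by linarith
        _ = 4 * Real.exp (a + ε ^ 2 / 8) * m * W ^ (-a) := by ring
  · have hLn : (L : ℝ) ≤ (n : ℝ) := by
      have : L ≤ n := min_le_left _ _
      exact_mod_cast this
    have hkn : 2 * (k : ℝ) ≤ ε * n := by
      have : ε * (L : ℝ) ≤ ε * (n : ℝ) := mul_le_mul_of_nonneg_left hLn hε.le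
      linarith
    have hkLn : k ≤ Nat.log 2 m := by
      have h1 : (k : ℝ) ≤ (L : ℝ) := by
        have : (0 : ℝ) ≤ (L : ℝ) := by positivity
        nlinarith
      have h2 : k ≤ L := by exact_mod_cast h1
      exact h2.trans (min_le_right _ _)
    have hkm : 2 ^ k ≤ m := by
      calc 2 ^ k ≤ 2 ^ Nat.log 2 m := Nat.pow_le_pow_right (by norm_num) hkLn
        _ ≤ m := Nat.pow_log_le_self 2 (by omega)
    obtain ⟨A, hA1, hA2⟩ := exists_family hε hε1 hkpos hkn hkm
    refine ⟨A, hA1, ?_⟩
    intro I hI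
    calc (I.card : ℝ) ≤ 4 * m * Real.exp (-(ε ^ 2 * k / 8)) := hA2 I hI
      _ ≤ 4 * m * (Real.exp (a + ε ^ 2 / 8) * W ^ (-a)) :=
          mul_le_mul_of_nonneg_left hkey (by positivity)
      _ = 4 * Real.exp (a + ε ^ 2 / 8) * m * W ^ (-a) := by ring

end Pool.Agent.Helper297.Family
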